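import Pool.Agent.Helper20.NP.Stmts
import Pool.Agent.Helper26.DNL.Low

set_option autoImplicit false

namespace Pool.Agent.Helper20.NP

universe u

theorem st_LOW : ST_LOW.{u} := by
  intro p _ hp2 k _ _ _ P _ _ hP e hep hec _
  exact Pool.Agent.Helper26.DNL.low_cond p hp2 k P hP ⟨e, hec, hep⟩

end Pool.Agent.Helper20.NP
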